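import Mathlib

set_option autoImplicit false

namespace Pool.Agent.Results.MP_d888c7_an.NoBVSolution

open MeasureTheory Set

/-- The class `Ω` of weights on `[0,1]`. -/
structure IsWeight (ω : ℝ → ℝ) : Prop where
  continuousOn : ContinuousOn ω (Icc 0 1)
  pos : ∀ x ∈ Icc (0 : ℝ) 1, 0 < ω x
  map_zero : ω 0 = 1
  integrable : IntegrableOn ω (Icc 0 1)
  integrable' : IntegrableOn (fun x => |1 - ω x| * x⁻¹) (Ioc 0 1)

/-- The sequence `λ_0 = 1`, `λ_n = (∫ ω₁ x^(n-1)) / (∫ ω₂ x^(n-1))`. -/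
noncomputable def lam (ω₁ ω₂ : ℝ → ℝ) (n : ℕ) : ℝ :=
  if n = 0 then 1 else
    (∫ x in (0 : ℝ)..1, ω₁ x * x ^ (n - 1)) * (∫ x in (0 : ℝ)..1, ω₂ x * x ^ (n - 1))⁻¹

/-- `I` is the Riemann-Stieltjes integral of `f` with respect to `β` over `[0,1]`: the limit of the
Riemann-Stieltjes sums over tagged partitions as the mesh tends to `0`. -/
def IsRSIntegral (f β : ℝ → ℝ) (I : ℝ) : Prop :=
  ∀ ε > 0, ∃ δ > 0, ∀ (N : ℕ) (t ξ : ℕ → ℝ), t 0 = 0 → t N = 1 →
    (∀ i < N, t i ≤ t (i + 1) ∧ t (i + 1) - t i < δ ∧ ξ i ∈ Icc (t i) (t (i + 1))) →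
    |∑ i ∈ Finset.range N, f (ξ i) * (β (t (i + 1)) - β (t i)) - I| < ε

/-- Sanity check: the unit jump at `1` integrates every function continuous on `[0,1]` to its value
at `1`, so in particular it solves the moment problem for the constant sequence `1`. -/
theorem isRSIntegral_jump (f : ℝ → ℝ) (hf : Continuous f) :
    IsRSIntegral f (fun x => if x < 1 then 0 else 1) (f 1) := by
  intro ε hε
  obtain ⟨δ, hδ0, hδ⟩ := Metric.continuousAt_iff.mp (hf.continuousAt (x := 1)) (ε / 2) (by positivity)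
  refine ⟨δ, hδ0, ?_⟩
  intro N t ξ ht0 htN h
  set β : ℝ → ℝ := fun x => if x < 1 then 0 else 1 with hβ
  have hβmono : ∀ x y, x ≤ y → β x ≤ β y := by
    intro x y hxy
    simp only [hβ]
    split_ifs <;> first | linarith | norm_num
  have htel : ∑ i ∈ Finset.range N, (β (t (i + 1)) - β (t i)) = 1 := by
    rw [Finset.sum_range_sub (fun i => β (t i)), htN, ht0]
    simp [hβ]
  have hle1 : ∀ k i, i + k = N → t i ≤ 1 := by
    intro k
    induction k with
    | zero => intro i hi; rw [← htN]; simp at hi; rw [hi]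
    | succ k ih =>
      intro i hi
      exact ((h i (by omega)).1).trans (ih (i + 1) (by omega))
  have hterm : ∀ i ∈ Finset.range N,
      |(f (ξ i) - f 1) * (β (t (i + 1)) - β (t i))| ≤ ε / 2 * (β (t (i + 1)) - β (t i)) := by
    intro i hi
    have hi' := Finset.mem_range.mp hi
    obtain ⟨h1, h2, h3⟩ := h i hi'
    have h4 := sub_nonneg.mpr (hβmono _ _ h1)
    rw [abs_mul, abs_of_nonneg h4]
    by_cases h5 : t (i + 1) < 1
    · have h6 : t i < 1 := lt_of_le_of_lt h1 h5
      simp [hβ, h5, h6]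
    · have h6 : t (i + 1) = 1 := le_antisymm (hle1 (N - (i + 1)) (i + 1) (by omega)) (not_lt.mp h5)
      apply mul_le_mul_of_nonneg_right _ h4
      have h7 : dist (ξ i) 1 < δ := by
        rw [Real.dist_eq, abs_lt]
        constructor <;> linarith [h3.1, h3.2]
      exact (hδ h7).le
  have hsplit : ∑ i ∈ Finset.range N, f (ξ i) * (β (t (i + 1)) - β (t i)) - f 1 =
      ∑ i ∈ Finset.range N, (f (ξ i) - f 1) * (β (t (i + 1)) - β (t i)) := by
    simp only [sub_mul]
    rw [Finset.sum_sub_distrib, ← Finset.mul_sum, htel, mul_one]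
  rw [hsplit]
  calc |∑ i ∈ Finset.range N, (f (ξ i) - f 1) * (β (t (i + 1)) - β (t i))|
      ≤ ∑ i ∈ Finset.range N, |(f (ξ i) - f 1) * (β (t (i + 1)) - β (t i))| :=
        Finset.abs_sum_le_sum_abs _ _
    _ ≤ ∑ i ∈ Finset.range N, ε / 2 * (β (t (i + 1)) - β (t i)) := Finset.sum_le_sum hterm
    _ = ε / 2 := by rw [← Finset.mul_sum, htel, mul_one]
    _ < ε := by linarith

/-- The moment functional of a function of bounded variation is bounded in the sup norm. -/
theorem functional_bound (β : ℝ → ℝ) (l : ℕ → ℝ) (hβ : BoundedVariationOn β (Icc 0 1))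
    (hl : ∀ n, IsRSIntegral (fun x => x ^ n) β (l n)) (N : ℕ) (c : ℕ → ℝ) (M : ℝ)
    (hM : ∀ x ∈ Icc (0 : ℝ) 1, |∑ n ∈ Finset.range N, c n * x ^ n| ≤ M) :
    |∑ n ∈ Finset.range N, c n * l n| ≤ (eVariationOn β (Icc 0 1)).toReal * M := by
  apply le_of_forall_pos_le_add
  intro η hη
  set C := ∑ n ∈ Finset.range N, |c n| with hC
  have hC0 : 0 ≤ C := Finset.sum_nonneg (fun _ _ => abs_nonneg _)
  set ε := η / (C + 1) with hε
  have hε0 : 0 < ε := by positivity
  have hεC : C * ε ≤ η := by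
    rw [hε, mul_div_assoc', div_le_iff₀ (by positivity)]
    nlinarith
  choose δ hδ0 hδ using fun n => hl n ε hε0
  -- a common mesh
  obtain ⟨d, hd0, hd⟩ : ∃ d > 0, ∀ n ∈ Finset.range N, d ≤ δ n := by
    rcases (Finset.range N).eq_empty_or_nonempty with h | h
    · exact ⟨1, one_pos, by simp [h]⟩
    · refine ⟨(Finset.range N).inf' h δ, ?_, fun n hn => Finset.inf'_le _ hn⟩
      rw [gt_iff_lt, Finset.lt_inf'_iff]
      exact fun n _ => hδ0 n
  obtain ⟨K, hK⟩ := exists_nat_gt (1 / d)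
  have hK0 : (0 : ℝ) < K := lt_trans (by positivity) hK
  have hKd : 1 / (K : ℝ) < d := by
    rw [div_lt_iff₀ hK0]
    rw [div_lt_iff₀ hd0] at hK
    linarith
  let t : ℕ → ℝ := fun i => min ((i : ℝ) / K) 1
  have ht0 : t 0 = 0 := by simp [t]
  have htK : t K = 1 := by simp [t, hK0.ne']
  have htmono : Monotone t := by
    intro i j hij
    apply min_le_min_right
    gcongr
  have ht01 : ∀ i, t i ∈ Icc (0 : ℝ) 1 := fun i => ⟨le_min (by positivity) zero_le_one, min_le_right _ _⟩
  have htd : ∀ i, t (i + 1) - t i < d := by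
    intro i
    have h1 : t (i + 1) - t i ≤ 1 / K := by
      have h2 : t (i + 1) ≤ t i + 1 / K := by
        have h3 : ((i + 1 : ℕ) : ℝ) / K = (i : ℝ) / K + 1 / K := by push_cast; ring
        simp only [t]
        rw [h3, ← min_add_add_right]
        apply min_le_min_left
        have : 0 < 1 / (K : ℝ) := by positivity
        linarith
      linarith
    linarith
  have hsum : ∀ n ∈ Finset.range N,
      |∑ i ∈ Finset.range K, (t i) ^ n * (β (t (i + 1)) - β (t i)) - l n| < ε := by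
    intro n hn
    apply hδ n K t t ht0 htK
    intro i _
    exact ⟨htmono (Nat.le_succ i), (htd i).trans_le (hd n hn), left_mem_Icc.mpr (htmono (Nat.le_succ i))⟩
  have hvar : ∑ i ∈ Finset.range K, |β (t (i + 1)) - β (t i)| ≤ (eVariationOn β (Icc 0 1)).toReal := by
    have h1 := eVariationOn.sum_le (f := β) (s := Icc (0 : ℝ) 1) (n := K) htmono ht01
    have h2 : (∑ i ∈ Finset.range K, edist (β (t (i + 1))) (β (t i))).toReal ≤
        (eVariationOn β (Icc 0 1)).toReal := ENNReal.toReal_mono hβ h1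
    rw [ENNReal.toReal_sum (fun i _ => edist_ne_top _ _)] at h2
    have h3 : ∀ i, (edist (β (t (i + 1))) (β (t i))).toReal = |β (t (i + 1)) - β (t i)| := by
      intro i
      rw [edist_dist, ENNReal.toReal_ofReal dist_nonneg, Real.dist_eq]
    rw [Finset.sum_congr rfl (fun i _ => h3 i)] at h2
    exact h2
  have hsplit : ∑ n ∈ Finset.range N, c n * l n =
      ∑ i ∈ Finset.range K, (∑ n ∈ Finset.range N, c n * (t i) ^ n) * (β (t (i + 1)) - β (t i)) -
      ∑ n ∈ Finset.range N, c n *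
        (∑ i ∈ Finset.range K, (t i) ^ n * (β (t (i + 1)) - β (t i)) - l n) := by
    have h1 : ∑ i ∈ Finset.range K,
        (∑ n ∈ Finset.range N, c n * (t i) ^ n) * (β (t (i + 1)) - β (t i)) =
        ∑ n ∈ Finset.range N, c n *
          ∑ i ∈ Finset.range K, (t i) ^ n * (β (t (i + 1)) - β (t i)) := by
      simp only [Finset.sum_mul, Finset.mul_sum]
      rw [Finset.sum_comm]
      simp only [mul_assoc]
    rw [h1, ← Finset.sum_sub_distrib]
    apply Finset.sum_congr rfl
    intro n _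
    ring
  have hM0 : 0 ≤ M := (abs_nonneg _).trans (hM 0 (by simp))
  calc |∑ n ∈ Finset.range N, c n * l n|
      ≤ |∑ i ∈ Finset.range K, (∑ n ∈ Finset.range N, c n * (t i) ^ n) * (β (t (i + 1)) - β (t i))| +
        |∑ n ∈ Finset.range N, c n *
        (∑ i ∈ Finset.range K, (t i) ^ n * (β (t (i + 1)) - β (t i)) - l n)| := by
        rw [hsplit]; exact abs_sub _ _
    _ ≤ ∑ i ∈ Finset.range K, M * |β (t (i + 1)) - β (t i)| +
        ∑ n ∈ Finset.range N, |c n| * ε := by
        apply add_le_add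
        · apply (Finset.abs_sum_le_sum_abs _ _).trans
          apply Finset.sum_le_sum
          intro i _
          rw [abs_mul]
          exact mul_le_mul_of_nonneg_right (hM _ (ht01 i)) (abs_nonneg _)
        · apply (Finset.abs_sum_le_sum_abs _ _).trans
          apply Finset.sum_le_sum
          intro n hn
          rw [abs_mul]
          exact mul_le_mul_of_nonneg_left (hsum n hn).le (abs_nonneg _)
    _ = M * ∑ i ∈ Finset.range K, |β (t (i + 1)) - β (t i)| + C * ε := by
        rw [← Finset.mul_sum, ← Finset.sum_mul]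
    _ ≤ M * (eVariationOn β (Icc 0 1)).toReal + η :=
        add_le_add (mul_le_mul_of_nonneg_left hvar hM0) hεC
    _ = (eVariationOn β (Icc 0 1)).toReal * M + η := by ring

/-- If `∫ q(xy) ω₂(y) dy = 0` for all `x` and the moment functional is bounded, then
`∫ q ω₁ = 0`. -/
theorem key (ω₁ ω₂ q : ℝ → ℝ) (l : ℕ → ℝ) (V : ℝ)
    (h1 : ContinuousOn ω₁ (Icc 0 1)) (h2 : ContinuousOn ω₂ (Icc 0 1))
    (hq : ContinuousOn q (Icc 0 1)) (b1 : ∀ x ∈ Icc (0 : ℝ) 1, |ω₁ x| ≤ 1)
    (b2 : ∀ x ∈ Icc (0 : ℝ) 1, |ω₂ x| ≤ 1)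
    (hl : ∀ n, (∫ y in (0 : ℝ)..1, ω₂ y * y ^ n) * l (n + 1) = ∫ y in (0 : ℝ)..1, ω₁ y * y ^ n)
    (hV : ∀ (N : ℕ) (c : ℕ → ℝ) (M : ℝ),
      (∀ x ∈ Icc (0 : ℝ) 1, |∑ n ∈ Finset.range N, c n * x ^ n| ≤ M) →
      |∑ n ∈ Finset.range N, c n * l n| ≤ V * M)
    (hq0 : ∀ x ∈ Icc (0 : ℝ) 1, ∫ y in (0 : ℝ)..1, ω₂ y * q (x * y) = 0) :
    ∫ y in (0 : ℝ)..1, ω₁ y * q y = 0 := by
  have hu : uIcc (0 : ℝ) 1 = Icc 0 1 := uIcc_of_le zero_le_one
  have hint1 : ∀ f : ℝ → ℝ, ContinuousOn f (Icc 0 1) →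
      IntervalIntegrable (fun y => ω₁ y * f y) volume 0 1 := by
    intro f hf
    apply ContinuousOn.intervalIntegrable
    rw [hu]
    exact h1.mul hf
  have hint2 : ∀ f : ℝ → ℝ, ContinuousOn f (Icc 0 1) →
      IntervalIntegrable (fun y => ω₂ y * f y) volume 0 1 := by
    intro f hf
    apply ContinuousOn.intervalIntegrable
    rw [hu]
    exact h2.mul hf
  rw [← abs_nonpos_iff]
  apply le_of_forall_pos_le_add
  intro η hη
  rw [zero_add]
  have hV0 : 0 ≤ V := by
    have := hV 0 (fun _ => 0) 1 (by simp)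
    simpa using this
  set ε := η / (V + 1) with hε
  have hε0 : 0 < ε := by positivity
  obtain ⟨p, hp⟩ := exists_polynomial_near_of_continuousOn 0 1 q hq ε hε0
  have hpc : Continuous (fun y => p.eval y) := p.continuous
  -- coefficients of the auxiliary polynomial
  let m : ℕ → ℝ := fun n => ∫ y in (0 : ℝ)..1, ω₂ y * y ^ n
  let c : ℕ → ℝ := fun n => match n with
    | 0 => 0
    | (k + 1) => p.coeff k * m k
  have hceval : ∀ x ∈ Icc (0 : ℝ) 1, ∑ n ∈ Finset.range (p.natDegree + 1 + 1), c n * x ^ n =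
      x * ∫ y in (0 : ℝ)..1, ω₂ y * p.eval (x * y) := by
    intro x _
    rw [Finset.sum_range_succ']
    have e1 : (fun y => ω₂ y * p.eval (x * y)) = fun y => ∑ k ∈ Finset.range (p.natDegree + 1),
        (p.coeff k * x ^ k) * (ω₂ y * y ^ k) := by
      funext y
      rw [Polynomial.eval_eq_sum_range, Finset.mul_sum]
      apply Finset.sum_congr rfl
      intro k _
      rw [mul_pow]
      ring
    rw [e1, intervalIntegral.integral_finsetSum]
    · simp only [intervalIntegral.integral_const_mul, c]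
      rw [Finset.mul_sum]
      simp only [zero_mul, add_zero]
      apply Finset.sum_congr rfl
      intro k _
      rw [pow_succ]
      ring
    · intro k _
      exact (hint2 (fun y => y ^ k) (by fun_prop)).const_mul _
  have hcl : ∑ n ∈ Finset.range (p.natDegree + 1 + 1), c n * l n =
      ∫ y in (0 : ℝ)..1, ω₁ y * p.eval y := by
    rw [Finset.sum_range_succ']
    have e1 : (fun y => ω₁ y * p.eval y) = fun y => ∑ k ∈ Finset.range (p.natDegree + 1),
        p.coeff k * (ω₁ y * y ^ k) := by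
      funext y
      rw [Polynomial.eval_eq_sum_range, Finset.mul_sum]
      apply Finset.sum_congr rfl
      intro k _
      ring
    rw [e1, intervalIntegral.integral_finsetSum]
    · simp only [intervalIntegral.integral_const_mul, c, zero_mul, add_zero]
      apply Finset.sum_congr rfl
      intro k _
      rw [← hl k]
      ring
    · intro k _
      exact (hint1 (fun y => y ^ k) (by fun_prop)).const_mul _
  have hbound : |∑ n ∈ Finset.range (p.natDegree + 1 + 1), c n * l n| ≤ V * ε := by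
    apply hV
    intro x hx
    rw [hceval x hx, abs_mul]
    have hxy : ∀ y ∈ Icc (0 : ℝ) 1, x * y ∈ Icc (0 : ℝ) 1 := fun y hy =>
      ⟨mul_nonneg hx.1 hy.1, mul_le_one₀ hx.2 hy.1 hy.2⟩
    have e2 : ∫ y in (0 : ℝ)..1, ω₂ y * p.eval (x * y) =
        ∫ y in (0 : ℝ)..1, ω₂ y * (p.eval (x * y) - q (x * y)) := by
      have e3 : (fun y => ω₂ y * (p.eval (x * y) - q (x * y))) =
          fun y => ω₂ y * p.eval (x * y) - ω₂ y * q (x * y) := by
        funext y; ring
      rw [e3, intervalIntegral.integral_sub, hq0 x hx, sub_zero]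
      · exact hint2 (fun y => p.eval (x * y)) (by fun_prop)
      · apply hint2 (fun y => q (x * y))
        apply hq.comp (by fun_prop)
        intro y hy
        exact hxy y hy
    have e4 : |∫ y in (0 : ℝ)..1, ω₂ y * p.eval (x * y)| ≤ ε := by
      rw [e2]
      have e5 := intervalIntegral.norm_integral_le_of_norm_le_const (a := (0 : ℝ)) (b := 1)
        (f := fun y => ω₂ y * (p.eval (x * y) - q (x * y))) (C := ε) (by
          intro y hy
          rw [uIoc_of_le zero_le_one] at hy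
          have hy' : y ∈ Icc (0 : ℝ) 1 := ⟨hy.1.le, hy.2⟩
          rw [Real.norm_eq_abs, abs_mul]
          calc |ω₂ y| * |p.eval (x * y) - q (x * y)| ≤ 1 * ε :=
                mul_le_mul (b2 y hy') (hp _ (hxy y hy')).le (abs_nonneg _) zero_le_one
            _ = ε := one_mul _)
      simpa using e5
    calc |x| * |∫ y in (0 : ℝ)..1, ω₂ y * p.eval (x * y)| ≤ 1 * ε :=
          mul_le_mul (abs_le.mpr ⟨by linarith [hx.1], hx.2⟩) e4 (abs_nonneg _) zero_le_one
      _ = ε := one_mul _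
  rw [hcl] at hbound
  have e6 : |∫ y in (0 : ℝ)..1, ω₁ y * (p.eval y - q y)| ≤ ε := by
    have e5 := intervalIntegral.norm_integral_le_of_norm_le_const (a := (0 : ℝ)) (b := 1)
      (f := fun y => ω₁ y * (p.eval y - q y)) (C := ε) (by
        intro y hy
        rw [uIoc_of_le zero_le_one] at hy
        have hy' : y ∈ Icc (0 : ℝ) 1 := ⟨hy.1.le, hy.2⟩
        rw [Real.norm_eq_abs, abs_mul]
        calc |ω₁ y| * |p.eval y - q y| ≤ 1 * ε :=
              mul_le_mul (b1 y hy') (hp _ hy').le (abs_nonneg _) zero_le_one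
          _ = ε := one_mul _)
    simpa using e5
  have e7 : ∫ y in (0 : ℝ)..1, ω₁ y * (p.eval y - q y) =
      (∫ y in (0 : ℝ)..1, ω₁ y * p.eval y) - ∫ y in (0 : ℝ)..1, ω₁ y * q y := by
    rw [← intervalIntegral.integral_sub]
    · apply intervalIntegral.integral_congr
      intro y _
      ring
    · exact hint1 _ hpc.continuousOn
    · exact hint1 _ hq
  rw [e7] at e6
  have e8 : V * ε + ε = η := by
    rw [hε]
    field_simp
  have e9 := abs_le.mp e6
  have e10 := abs_le.mp hbound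
  rw [abs_le]
  constructor <;> linarith

/-- The exponent `1 + √47 i`. -/
noncomputable def r : ℂ := 1 + (Real.sqrt 47 : ℝ) * Complex.I

theorem r_re : r.re = 1 := by simp [r]

theorem r_im : r.im = Real.sqrt 47 := by simp [r]

theorem add_ne (a : ℝ) (ha : 0 ≤ a) : r + a ≠ 0 := by
  intro h
  have h1 := congrArg Complex.re h
  rw [Complex.add_re, r_re, Complex.ofReal_re, Complex.zero_re] at h1
  linarith

theorem r_sq : (r + 1) * (r + 1) = 4 * (r + 1) - 51 := by
  have h47 : (Real.sqrt 47 : ℂ) * (Real.sqrt 47 : ℂ) = 47 := by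
    rw [← Complex.ofReal_mul, Real.mul_self_sqrt (by norm_num)]
    norm_num
  unfold r
  linear_combination h47 * Complex.I * Complex.I + 47 * Complex.I_mul_I

theorem cont_r : Continuous (fun y : ℝ => (y : ℂ) ^ r) :=
  Complex.continuous_ofReal_cpow_const (by rw [r_re]; norm_num)

theorem int_pow (j : ℕ) : ∫ y in (0 : ℝ)..1, (y : ℂ) ^ r * (y : ℂ) ^ j = 1 / (r + 1 + j) := by
  have h1 : ∀ y : ℝ, (y : ℂ) ^ r * (y : ℂ) ^ j = (y : ℂ) ^ (r + j) := by
    intro y
    by_cases hy : y = 0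
    · subst hy
      have h0 : r ≠ 0 := by
        have := add_ne 0 le_rfl
        simpa using this
      have h2 : r + j ≠ 0 := by
        have := add_ne j (Nat.cast_nonneg j)
        simpa using this
      rw [Complex.ofReal_zero, Complex.zero_cpow h0, Complex.zero_cpow h2, zero_mul]
    · rw [Complex.cpow_add _ _ (by exact_mod_cast hy), Complex.cpow_natCast]
  simp_rw [h1]
  rw [integral_cpow]
  · have h3 : r + j + 1 ≠ 0 := by
      have := add_ne (j + 1) (by positivity)
      intro h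
      apply this
      rw [← h]
      push_cast
      ring
    rw [Complex.ofReal_one, Complex.one_cpow, Complex.ofReal_zero, Complex.zero_cpow h3, sub_zero]
    congr 1
    ring
  · left
    rw [Complex.add_re, r_re, Complex.natCast_re]
    have : (0 : ℝ) ≤ j := Nat.cast_nonneg j
    linarith

theorem int_cubic (a b c d : ℝ) :
    ∫ y in (0 : ℝ)..1, ((a + b * y + c * y ^ 2 + d * y ^ 3 : ℝ) : ℂ) * (y : ℂ) ^ r =
      a / (r + 1) + b / (r + 2) + c / (r + 3) + d / (r + 4) := by
  have h1 : ∀ y : ℝ, ((a + b * y + c * y ^ 2 + d * y ^ 3 : ℝ) : ℂ) * (y : ℂ) ^ r =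
      a * ((y : ℂ) ^ r * (y : ℂ) ^ 0) + b * ((y : ℂ) ^ r * (y : ℂ) ^ 1) +
      c * ((y : ℂ) ^ r * (y : ℂ) ^ 2) + d * ((y : ℂ) ^ r * (y : ℂ) ^ 3) := by
    intro y
    push_cast
    ring
  have hi : ∀ (e : ℝ) (j : ℕ), IntervalIntegrable
      (fun y : ℝ => (e : ℂ) * ((y : ℂ) ^ r * (y : ℂ) ^ j)) volume 0 1 := by
    intro e j
    apply Continuous.intervalIntegrable
    exact continuous_const.mul (cont_r.mul (by fun_prop))
  simp_rw [h1]
  rw [intervalIntegral.integral_add (((hi a 0).add (hi b 1)).add (hi c 2)) (hi d 3),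
    intervalIntegral.integral_add ((hi a 0).add (hi b 1)) (hi c 2),
    intervalIntegral.integral_add (hi a 0) (hi b 1)]
  simp only [intervalIntegral.integral_const_mul, int_pow]
  push_cast
  ring

/-- The real test function `Re (x ^ r)`. -/
noncomputable def q (x : ℝ) : ℝ := ((x : ℂ) ^ r).re

theorem q_cont : Continuous q := Complex.continuous_re.comp cont_r

/-- The weight `ω₁(x) = (1 + 99 (1-x)³) / 100`. -/
noncomputable def w1 (x : ℝ) : ℝ := (1 + 99 * (1 - x) ^ 3) / 100

/-- The weight `ω₂(x) = (1 + 84 (1-x)³) / 85`. -/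
noncomputable def w2 (x : ℝ) : ℝ := (1 + 84 * (1 - x) ^ 3) / 85

theorem rational_id (s : ℂ) (hs : s * s = 4 * s - 51) (e0 : s ≠ 0) (e1 : s + 1 ≠ 0)
    (e2 : s + 2 ≠ 0) (e3 : s + 3 ≠ 0) :
    1 / s + (-252 / 85) / (s + 1) + (252 / 85) / (s + 2) + (-84 / 85) / (s + 3) = 0 := by
  field_simp
  linear_combination (s + 10) * hs

theorem rational_id' (s : ℂ) (hs : s * s = 4 * s - 51) (e0 : s ≠ 0) (e1 : s + 1 ≠ 0)
    (e2 : s + 2 ≠ 0) (e3 : s + 3 ≠ 0) :
    1 / s + (-297 / 100) / (s + 1) + (297 / 100) / (s + 2) + (-99 / 100) / (s + 3) =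
      -1 / (560 * s) := by
  field_simp
  linear_combination 660 * (s + 10) * hs

theorem int_w2 : ∫ y in (0 : ℝ)..1, (w2 y : ℂ) * (y : ℂ) ^ r = 0 := by
  have h1 : ∀ y : ℝ, w2 y = 1 + (-252 / 85) * y + (252 / 85) * y ^ 2 + (-84 / 85) * y ^ 3 := by
    intro y
    unfold w2
    ring
  simp_rw [h1]
  rw [int_cubic]
  have e1 : r + 1 ≠ 0 := by have := add_ne 1 (by norm_num); simpa using this
  have e2 : r + 1 + 1 ≠ 0 := by
    have := add_ne 2 (by norm_num)
    intro h; apply this; rw [← h]; push_cast; ring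
  have e3 : r + 1 + 2 ≠ 0 := by
    have := add_ne 3 (by norm_num)
    intro h; apply this; rw [← h]; push_cast; ring
  have e4 : r + 1 + 3 ≠ 0 := by
    have := add_ne 4 (by norm_num)
    intro h; apply this; rw [← h]; push_cast; ring
  have := rational_id (r + 1) r_sq e1 e2 e3 e4
  rw [← this]
  push_cast
  rw [show r + 1 + 1 = r + 2 by ring, show r + 1 + 2 = r + 3 by ring,
    show r + 1 + 3 = r + 4 by ring]

theorem int_w1 : ∫ y in (0 : ℝ)..1, (w1 y : ℂ) * (y : ℂ) ^ r = -1 / (560 * (r + 1)) := by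
  have h1 : ∀ y : ℝ, w1 y = 1 + (-297 / 100) * y + (297 / 100) * y ^ 2 + (-99 / 100) * y ^ 3 := by
    intro y
    unfold w1
    ring
  simp_rw [h1]
  rw [int_cubic]
  have e1 : r + 1 ≠ 0 := by have := add_ne 1 (by norm_num); simpa using this
  have e2 : r + 1 + 1 ≠ 0 := by
    have := add_ne 2 (by norm_num)
    intro h; apply this; rw [← h]; push_cast; ring
  have e3 : r + 1 + 2 ≠ 0 := by
    have := add_ne 3 (by norm_num)
    intro h; apply this; rw [← h]; push_cast; ring
  have e4 : r + 1 + 3 ≠ 0 := by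
    have := add_ne 4 (by norm_num)
    intro h; apply this; rw [← h]; push_cast; ring
  have := rational_id' (r + 1) r_sq e1 e2 e3 e4
  rw [← this]
  push_cast
  rw [show r + 1 + 1 = r + 2 by ring, show r + 1 + 2 = r + 3 by ring,
    show r + 1 + 3 = r + 4 by ring]

theorem w1_cont : Continuous w1 := by unfold w1; fun_prop
theorem w2_cont : Continuous w2 := by unfold w2; fun_prop

theorem int_w2_q (x : ℝ) (hx : x ∈ Icc (0 : ℝ) 1) :
    ∫ y in (0 : ℝ)..1, w2 y * q (x * y) = 0 := by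
  have h1 : ∫ y in (0 : ℝ)..1, w2 y * q (x * y) =
      ∫ y in (0 : ℝ)..1, Complex.reCLM ((x : ℂ) ^ r * ((w2 y : ℂ) * (y : ℂ) ^ r)) := by
    apply intervalIntegral.integral_congr
    intro y hy
    rw [uIcc_of_le zero_le_one] at hy
    change w2 y * ((((x * y : ℝ) : ℂ)) ^ r).re = ((x : ℂ) ^ r * ((w2 y : ℂ) * (y : ℂ) ^ r)).re
    rw [Complex.ofReal_mul, Complex.mul_cpow_ofReal_nonneg hx.1 hy.1,
      ← Complex.re_ofReal_mul]
    congr 1
    ring
  rw [h1, ContinuousLinearMap.intervalIntegral_comp_comm, intervalIntegral.integral_const_mul,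
    int_w2, mul_zero, map_zero]
  apply Continuous.intervalIntegrable
  have := w2_cont
  exact continuous_const.mul ((Complex.continuous_ofReal.comp w2_cont).mul cont_r)

theorem int_w1_q : ∫ y in (0 : ℝ)..1, w1 y * q y = -1 / 14280 := by
  have h1 : ∫ y in (0 : ℝ)..1, w1 y * q y =
      ∫ y in (0 : ℝ)..1, Complex.reCLM ((w1 y : ℂ) * (y : ℂ) ^ r) := by
    apply intervalIntegral.integral_congr
    intro y hy
    change w1 y * ((y : ℂ) ^ r).re = ((w1 y : ℂ) * (y : ℂ) ^ r).re
    rw [← Complex.re_ofReal_mul]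
  rw [h1, ContinuousLinearMap.intervalIntegral_comp_comm, int_w1]
  · have hs := r_sq
    have e1 : r + 1 ≠ 0 := by have := add_ne 1 (by norm_num); simpa using this
    have h2 : -1 / (560 * (r + 1)) = (r + 1 - 4) / 28560 := by
      field_simp
      linear_combination (-560 : ℂ) * hs
    rw [h2]
    change ((r + 1 - 4) / 28560).re = -1 / 14280
    rw [show (28560 : ℂ) = ((28560 : ℝ) : ℂ) by norm_num, Complex.div_ofReal_re]
    simp only [Complex.sub_re, Complex.add_re, r_re, Complex.one_re]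
    norm_num
  · apply Continuous.intervalIntegrable
    exact (Complex.continuous_ofReal.comp w1_cont).mul cont_r

theorem isWeight_of (K : ℝ) (hK : 0 < K) (ω : ℝ → ℝ)
    (hω : ∀ x, ω x = (1 + K * (1 - x) ^ 3) / (1 + K)) : IsWeight ω := by
  have hcont : Continuous ω := by
    rw [funext hω]
    fun_prop
  refine ⟨hcont.continuousOn, ?_, ?_, ?_, ?_⟩
  · intro x hx
    rw [hω]
    have : 0 ≤ (1 - x) ^ 3 := pow_nonneg (by linarith [hx.2]) 3
    positivity
  · rw [hω]
    field_simp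
    ring
  · exact hcont.continuousOn.integrableOn_compact isCompact_Icc
  · have h1 : IntegrableOn (fun x : ℝ => |K / (1 + K) * (3 - 3 * x + x ^ 2)|) (Ioc 0 1) :=
      (Continuous.continuousOn (by fun_prop)).integrableOn_compact isCompact_Icc |>.mono_set
        Ioc_subset_Icc_self
    refine h1.congr_fun ?_ measurableSet_Ioc
    intro x hx
    have hx0 : 0 < x := hx.1
    change |K / (1 + K) * (3 - 3 * x + x ^ 2)| = |1 - ω x| * x⁻¹
    rw [hω, ← abs_of_pos (inv_pos.mpr hx0), ← abs_mul]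
    congr 1
    field_simp
    ring

theorem isWeight_w1 : IsWeight w1 := isWeight_of 99 (by norm_num) w1 (fun x => by
  unfold w1; norm_num)

theorem isWeight_w2 : IsWeight w2 := isWeight_of 84 (by norm_num) w2 (fun x => by
  unfold w2; norm_num)

theorem antitone_of (K : ℝ) (hK : 0 < K) (ω : ℝ → ℝ)
    (hω : ∀ x, ω x = (1 + K * (1 - x) ^ 3) / (1 + K)) : AntitoneOn ω (Icc 0 1) := by
  intro x hx y hy hxy
  rw [hω, hω]
  have : (1 - y) ^ 3 ≤ (1 - x) ^ 3 := pow_le_pow_left₀ (by linarith [hy.2]) (by linarith) 3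
  gcongr

theorem antitone_w1 : AntitoneOn w1 (Icc 0 1) := antitone_of 99 (by norm_num) w1 (fun x => by
  unfold w1; norm_num)

theorem antitone_w2 : AntitoneOn w2 (Icc 0 1) := antitone_of 84 (by norm_num) w2 (fun x => by
  unfold w2; norm_num)

theorem antitone_ratio : AntitoneOn (fun x => w1 x / w2 x) (Icc 0 1) := by
  intro x hx y hy hxy
  have h1 := isWeight_w2.pos x hx
  have h2 := isWeight_w2.pos y hy
  change w1 y / w2 y ≤ w1 x / w2 x
  rw [div_le_div_iff₀ h2 h1]
  have h3 : (1 - y) ^ 3 ≤ (1 - x) ^ 3 := pow_le_pow_left₀ (by linarith [hy.2]) (by linarith) 3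
  unfold w1 w2
  nlinarith

theorem abs_le_one_of (ω : ℝ → ℝ) (h : IsWeight ω) (ha : AntitoneOn ω (Icc 0 1)) :
    ∀ x ∈ Icc (0 : ℝ) 1, |ω x| ≤ 1 := by
  intro x hx
  rw [abs_of_pos (h.pos x hx), ← h.map_zero]
  exact ha (left_mem_Icc.mpr zero_le_one) hx hx.1

theorem int_pos (n : ℕ) : 0 < ∫ y in (0 : ℝ)..1, w2 y * y ^ n := by
  apply intervalIntegral.intervalIntegral_pos_of_pos_on
  · apply Continuous.intervalIntegrable
    have := w2_cont
    fun_prop
  · intro x hx
    exact mul_pos (isWeight_w2.pos x ⟨hx.1.le, hx.2.le⟩) (pow_pos hx.1 n)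
  · exact one_pos

/-- There are weights `ω₁, ω₂` satisfying all the assumptions for which no function of bounded
variation solves the moment problem. -/
theorem result : ∃ ω₁ ω₂ : ℝ → ℝ, IsWeight ω₁ ∧ IsWeight ω₂ ∧
    (MonotoneOn ω₁ (Icc 0 1) ∨ AntitoneOn ω₁ (Icc 0 1)) ∧
    (MonotoneOn ω₂ (Icc 0 1) ∨ AntitoneOn ω₂ (Icc 0 1)) ∧
    AntitoneOn (fun x => ω₁ x / ω₂ x) (Icc 0 1) ∧
    ¬ ∃ β : ℝ → ℝ, BoundedVariationOn β (Icc 0 1) ∧
      ∀ n : ℕ, IsRSIntegral (fun x => x ^ n) β (lam ω₁ ω₂ n) := by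
  refine ⟨w1, w2, isWeight_w1, isWeight_w2, Or.inr antitone_w1, Or.inr antitone_w2,
    antitone_ratio, ?_⟩
  rintro ⟨β, hβ, hl⟩
  have h := key w1 w2 q (lam w1 w2) (eVariationOn β (Icc 0 1)).toReal
    w1_cont.continuousOn w2_cont.continuousOn q_cont.continuousOn
    (abs_le_one_of w1 isWeight_w1 antitone_w1) (abs_le_one_of w2 isWeight_w2 antitone_w2)
    (fun n => by
      unfold lam
      rw [if_neg (Nat.succ_ne_zero n), Nat.add_sub_cancel]
      have := (int_pos n).ne'
      field_simp)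
    (fun N c M hM => functional_bound β (lam w1 w2) hβ hl N c M hM)
    int_w2_q
  rw [int_w1_q] at h
  norm_num at h

end Pool.Agent.Results.MP_d888c7_an.NoBVSolution
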